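import Pool.Agent.N205.WT.Stm
import Pool.Agent.R80.WF.Nd

/-!
# Project WT, part 5: the ordinary surfaces `X^4 + X^3 + X^2 + p X + p^2`
-/

set_option autoImplicit false

namespace Pool.Agent.N459.WT

open Polynomial IntermediateField
open Pool.Agent.R80.WF (Good)

/-- the quartic -/
noncomputable def P (p : ℕ) : ℤ[X] := X ^ 4 + X ^ 3 + X ^ 2 + C (p : ℤ) * X + C ((p : ℤ) ^ 2)

/-- the trace polynomial -/
noncomputable def H (p : ℕ) : ℤ[X] := X ^ 2 + X + C (1 - 2 * (p : ℤ))

theorem P_monic (p : ℕ) : (P p).Monic := by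
  unfold P; monicity!

theorem P_deg (p : ℕ) : (P p).natDegree = 4 := by
  unfold P; compute_degree!

theorem H_monic (p : ℕ) : (H p).Monic := by
  unfold H; monicity!

theorem H_deg (p : ℕ) : (H p).natDegree = 2 := by
  unfold H; compute_degree!

theorem aeval_P (p : ℕ) {K : Type} [Field K] (x : K) : aeval x (P p) =
    x ^ 4 + x ^ 3 + x ^ 2 + p * x + p ^ 2 := by
  have e : ∀ n : ℤ, aeval x (C n : ℤ[X]) = (n : K) := fun n => by rw [aeval_C]; simp
  simp only [P, map_add, map_mul, map_pow, aeval_X, e, Int.cast_natCast]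

theorem aeval_H (p : ℕ) {K : Type} [Field K] (x : K) : aeval x (H p) =
    x ^ 2 + x + (1 - 2 * p) := by
  have e : ∀ n : ℤ, aeval x (C n : ℤ[X]) = (n : K) := fun n => by rw [aeval_C]; simp
  simp only [H, map_add, map_pow, aeval_X, e]
  push_cast
  ring

theorem H_of_P (p : ℕ) {K : Type} [Field K] {x x' : K} (hxx : x * x' = p) (hx0 : x ≠ 0)
    (h : aeval x (P p) = 0) : (x + x') ^ 2 + (x + x') + (1 - 2 * p) = 0 := by
  rw [aeval_P] at h
  refine mul_left_cancel₀ (pow_ne_zero 2 hx0) ?_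
  rw [mul_zero]
  linear_combination h + (2 * x ^ 2 + x * x' + p + x) * hxx

theorem root_ne (p : ℕ) (hp : 0 < p) {x : ℂ} (hx : aeval x (P p) = 0) : x ≠ 0 := by
  rintro rfl
  rw [aeval_P] at hx
  have : (p : ℂ) ≠ 0 := by exact_mod_cast hp.ne'
  simp [this] at hx

theorem root (p : ℕ) (hp : 2 ≤ p) {x : ℂ} (hx : aeval x (P p) = 0) :
    ‖x‖ = Real.sqrt p ∧ x.im ≠ 0 := by
  have hp2 : (2 : ℝ) ≤ p := by exact_mod_cast hp
  have hx0 := root_ne p (by omega) hx
  have hxx : x * (p / x) = p := mul_div_cancel₀ _ hx0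
  have hT := H_of_P p hxx hx0 hx
  obtain ⟨T, hTd⟩ : ∃ T, T = x + p / x := ⟨_, rfl⟩
  rw [← hTd] at hT
  obtain ⟨s, hs⟩ : ∃ s : ℝ, s = Real.sqrt (8 * p - 3) := ⟨_, rfl⟩
  have hs2 : s ^ 2 = 8 * p - 3 := by
    rw [hs, Real.sq_sqrt (by linarith)]
  have hs0 : 0 ≤ s := by rw [hs]; exact Real.sqrt_nonneg _
  have hs2' : (s : ℂ) ^ 2 = 8 * p - 3 := by exact_mod_cast congrArg (fun t : ℝ => (t : ℂ)) hs2
  have hsb : s < 4 * p + 1 := by
    by_contra hcon
    push Not at hcon
    nlinarith
  have hfac : (2 * T + 1 - s) * (2 * T + 1 + s) = 0 := by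
    linear_combination 4 * hT - hs2'
  have hreal : ∃ t : ℝ, T = (t : ℂ) ∧ t ^ 2 < 4 * p := by
    rcases mul_eq_zero.1 hfac with h | h
    · refine ⟨(s - 1) / 2, ?_, ?_⟩
      · push_cast
        linear_combination h / 2
      · nlinarith
    · refine ⟨(-s - 1) / 2, ?_, ?_⟩
      · push_cast
        linear_combination h / 2
      · nlinarith
  obtain ⟨t, hTt, htt⟩ := hreal
  have hq : x ^ 2 - t * x + p = 0 := by
    have h3 : x * (x + p / x) = t * x := by
      rw [← hTd, hTt]
      ring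
    have h4 : x * (x + p / x) = x ^ 2 + p := by
      field_simp
    rw [h4] at h3
    linear_combination h3
  have hre := congrArg Complex.re hq
  have him := congrArg Complex.im hq
  simp only [pow_two, Complex.add_re, Complex.sub_re, Complex.mul_re, Complex.ofReal_re,
    Complex.ofReal_im, Complex.natCast_re, Complex.zero_re, zero_mul, sub_zero] at hre
  simp only [pow_two, Complex.add_im, Complex.sub_im, Complex.mul_im, Complex.ofReal_re,
    Complex.ofReal_im, Complex.natCast_im, Complex.zero_im, zero_mul, add_zero] at him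
  have him2 : x.im * (2 * x.re - t) = 0 := by linarith
  have himn : x.im ≠ 0 := by
    intro h
    rw [h] at hre
    nlinarith [sq_nonneg (x.re - t / 2)]
  have hn : x.re ^ 2 + x.im ^ 2 = p := by
    rcases mul_eq_zero.1 him2 with h | h
    · exact absurd h himn
    · have ht : t = 2 * x.re := by linarith
      rw [ht] at hre
      nlinarith
  have hns : ‖x‖ ^ 2 = p := by
    rw [← Complex.normSq_eq_norm_sq, Complex.normSq_apply, ← hn]
    ring
  exact ⟨by rw [← hns, Real.sqrt_sq (norm_nonneg _)], himn⟩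

theorem H_irr (p : ℕ) : Irreducible ((H p).map (Int.castRingHom ℚ)) := by
  have hm : ((H p).map (Int.castRingHom ℚ)).Monic := (H_monic p).map _
  have hd : ((H p).map (Int.castRingHom ℚ)).natDegree = 2 := by
    rw [(H_monic p).natDegree_map, H_deg]
  rw [Polynomial.irreducible_iff_roots_eq_zero_of_degree_le_three (by rw [hd]) (by rw [hd]; norm_num)]
  rw [Multiset.eq_zero_iff_forall_notMem]
  intro t ht
  rw [Polynomial.mem_roots hm.ne_zero, IsRoot.def, eval_map, ← algebraMap_int_eq] at ht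
  have ht' : aeval t (H p) = 0 := ht
  have hint : IsIntegral ℤ t := ⟨H p, H_monic p, ht⟩
  obtain ⟨z, hz⟩ := IsIntegrallyClosed.isIntegral_iff.1 hint
  rw [aeval_H, ← hz] at ht'
  have h1 : z ^ 2 + z + (1 - 2 * (p : ℤ)) = 0 := by
    have : ((z ^ 2 + z + (1 - 2 * (p : ℤ)) : ℤ) : ℚ) = 0 := by
      push_cast
      simpa using ht'
    exact_mod_cast this
  have h2 : z ^ 2 + z = z * (z + 1) := by ring
  have h3 := Int.even_mul_succ_self z
  rw [← h2] at h3
  obtain ⟨w, hw⟩ := h3
  omega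

/-- the real numbers as an intermediate field -/
noncomputable def RR : IntermediateField ℚ ℂ :=
  (Complex.ofRealHom.fieldRange).toIntermediateField fun q => ⟨(q : ℝ), by simp⟩

theorem mem_RR {s : ℂ} (h : s ∈ RR) : s.im = 0 := by
  obtain ⟨r, rfl⟩ := h
  exact Complex.ofReal_im r

theorem P_irr (p : ℕ) (hp : 2 ≤ p) : Irreducible ((P p).map (Int.castRingHom ℚ)) := by
  obtain ⟨x, hx⟩ : ∃ x : ℂ, aeval x (P p) = 0 := by
    obtain ⟨x, hx⟩ := IsAlgClosed.exists_aeval_eq_zero_of_injective ℂ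
      (RingHom.injective_int (algebraMap ℤ ℂ)) (P p) (by
        rw [degree_eq_natDegree (P_monic p).ne_zero, P_deg]
        norm_num)
    exact ⟨x, hx⟩
  obtain ⟨hnorm, him⟩ := root p hp hx
  have hx0 := root_ne p (by omega) hx
  obtain ⟨y, hy⟩ : ∃ y : ℂ, y = (starRingEnd ℂ) x := ⟨_, rfl⟩
  have hxy : x * y = p := by
    rw [hy, Complex.mul_conj, Complex.normSq_eq_norm_sq, hnorm, Real.sq_sqrt (by positivity)]
    simp
  have hT : aeval (x + y) (H p) = 0 := by
    rw [aeval_H]
    exact H_of_P p hxy hx0 hx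
  have hHm' : ((H p).map (Int.castRingHom ℚ)).Monic := (H_monic p).map _
  have hT' : aeval (x + y) ((H p).map (Int.castRingHom ℚ)) = 0 := by
    rw [← hT]
    exact aeval_map_algebraMap ℚ (x + y) (H p)
  have hminT : (H p).map (Int.castRingHom ℚ) = minpoly ℚ (x + y) :=
    minpoly.eq_of_irreducible_of_monic (H_irr p) hT' hHm'
  have hintT : IsIntegral ℚ (x + y) := ⟨_, hHm', by simpa [aeval_def] using hT'⟩
  have hfT : Module.finrank ℚ ℚ⟮x + y⟯ = 2 := by
    rw [IntermediateField.adjoin.finrank hintT, ← hminT, (H_monic p).natDegree_map, H_deg]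
  have hPm' : ((P p).map (Int.castRingHom ℚ)).Monic := (P_monic p).map _
  have hx' : aeval x ((P p).map (Int.castRingHom ℚ)) = 0 := by
    rw [← hx]
    exact aeval_map_algebraMap ℚ x (P p)
  have hintx : IsIntegral ℚ x := ⟨_, hPm', by simpa [aeval_def] using hx'⟩
  have hxmem : x ∈ ℚ⟮x⟯ := IntermediateField.mem_adjoin_simple_self ℚ x
  have hyx : y = (p : ℂ) / x := by
    rw [eq_div_iff hx0, mul_comm, hxy]
  have hle : ℚ⟮x + y⟯ ≤ ℚ⟮x⟯ := by
    rw [IntermediateField.adjoin_simple_le_iff]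
    refine add_mem hxmem ?_
    rw [hyx]
    exact div_mem (IntermediateField.natCast_mem _ p) hxmem
  have hfd : FiniteDimensional ℚ ℚ⟮x⟯ := IntermediateField.adjoin.finiteDimensional hintx
  have hfdT : FiniteDimensional ℚ ℚ⟮x + y⟯ := IntermediateField.adjoin.finiteDimensional hintT
  have hreal : ℚ⟮x + y⟯ ≤ RR := by
    rw [IntermediateField.adjoin_simple_le_iff]
    exact ⟨2 * x.re, by
      rw [hy, Complex.add_conj]
      simp⟩
  have hxT : x ∉ ℚ⟮x + y⟯ := fun hmem => him (mem_RR (hreal hmem))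
  have hdvd : Module.finrank ℚ ℚ⟮x + y⟯ ∣ Module.finrank ℚ ℚ⟮x⟯ :=
    IntermediateField.finrank_dvd_of_le_right hle
  have hne : Module.finrank ℚ ℚ⟮x + y⟯ ≠ Module.finrank ℚ ℚ⟮x⟯ := by
    intro he
    have := IntermediateField.eq_of_le_of_finrank_eq hle he
    rw [this] at hxT
    exact hxT hxmem
  have hpos : 0 < Module.finrank ℚ ℚ⟮x⟯ := Module.finrank_pos
  have h2g : 4 ≤ (minpoly ℚ x).natDegree := by
    rw [← IntermediateField.adjoin.finrank hintx]
    rw [hfT] at hdvd hne
    omega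
  have hdvd2 : minpoly ℚ x ∣ (P p).map (Int.castRingHom ℚ) := minpoly.dvd ℚ x hx'
  have heq : (P p).map (Int.castRingHom ℚ) = minpoly ℚ x :=
    Polynomial.eq_of_monic_of_dvd_of_natDegree_le (minpoly.monic hintx) hPm' hdvd2 (by
      rw [(P_monic p).natDegree_map, P_deg]
      exact h2g)
  rw [heq]
  exact minpoly.irreducible hintx

/-- `x` and `p / x` do not have a common power -/
theorem no_real (p : ℕ) (hp : 2 ≤ p) {x x' : ℂ} (hx : IsIntegral ℤ x) (hx' : IsIntegral ℤ x')
    (hxx : x * x' = p) (hT : (x + x') ^ 2 + (x + x') + (1 - 2 * p) = 0) {n : ℕ} (hn : 1 ≤ n)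
    (h : x' ^ n = x ^ n) : False := by
  obtain ⟨a, ha⟩ : ∃ a : integralClosure ℤ ℂ, (a : ℂ) = x := ⟨⟨x, hx⟩, rfl⟩
  obtain ⟨b, hb⟩ : ∃ b : integralClosure ℤ ℂ, (b : ℂ) = x' := ⟨⟨x', hx'⟩, rfl⟩
  have hab : a * b = (p : integralClosure ℤ ℂ) := by
    apply Subtype.ext
    push_cast
    rw [ha, hb, hxx]
  have hn' : b ^ n = a ^ n := by
    apply Subtype.ext
    push_cast
    rw [ha, hb, h]
  have hT' : (a + b) ^ 2 + (a + b) + (1 - 2 * (p : integralClosure ℤ ℂ)) = 0 := by
    apply Subtype.ext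
    have h2 : ((2 : integralClosure ℤ ℂ) : ℂ) = 2 := rfl
    push_cast
    rw [ha, hb, h2, hT]
  obtain ⟨I, hI⟩ : ∃ I : Ideal (integralClosure ℤ ℂ), I = Ideal.span {(p : integralClosure ℤ ℂ)} :=
    ⟨_, rfl⟩
  have hpI : (p : integralClosure ℤ ℂ) ∈ I := by
    rw [hI]
    exact Ideal.subset_span rfl
  have ha2 : a ∈ I.radical := by
    refine ⟨2 * n, ?_⟩
    have : a ^ (2 * n) = (p : integralClosure ℤ ℂ) ^ n := by
      rw [← hab, mul_pow, hn', ← pow_add]
      congr 1
      omega
    rw [this]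
    exact Ideal.pow_mem_of_mem I hpI n (by omega)
  have hb2 : b ∈ I.radical := by
    refine ⟨2 * n, ?_⟩
    have : b ^ (2 * n) = (p : integralClosure ℤ ℂ) ^ n := by
      rw [← hab, mul_pow, ← hn', ← pow_add]
      congr 1
      omega
    rw [this]
    exact Ideal.pow_mem_of_mem I hpI n (by omega)
  have hy : a + b ∈ I.radical := Ideal.add_mem _ ha2 hb2
  have h1 : (1 : integralClosure ℤ ℂ) ∈ I.radical := by
    have e : (1 : integralClosure ℤ ℂ) = 2 * p - (a + b + 1) * (a + b) := by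
      linear_combination hT'
    rw [e]
    exact Ideal.sub_mem _ (Ideal.mul_mem_left _ _ (Ideal.le_radical hpI))
      (Ideal.mul_mem_left _ _ hy)
  obtain ⟨m, hm⟩ := h1
  rw [one_pow, hI, Ideal.mem_span_singleton] at hm
  obtain ⟨w, hw⟩ := hm
  have hw' : (w : ℂ) = algebraMap ℚ ℂ (1 / p) := by
    have h2 := congrArg (fun t : integralClosure ℤ ℂ => (t : ℂ)) hw
    have hp0 : (p : ℂ) ≠ 0 := by
      have : p ≠ 0 := by omega
      exact_mod_cast this
    push_cast at h2
    rw [eq_ratCast]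
    push_cast
    rw [eq_div_iff hp0, mul_comm]
    exact h2.symm
  have hwi : IsIntegral ℤ (w : ℂ) := w.2
  rw [hw'] at hwi
  have hint2 : IsIntegral ℤ ((1 : ℚ) / p) :=
    (isIntegral_algebraMap_iff (algebraMap ℚ ℂ).injective).1 hwi
  obtain ⟨z, hz⟩ := IsIntegrallyClosed.isIntegral_iff.1 hint2
  have hp0 : (p : ℚ) ≠ 0 := by
    have : p ≠ 0 := by omega
    exact_mod_cast this
  have hz' : (z : ℚ) * p = 1 := by
    have : (z : ℚ) = 1 / p := hz
    rw [this]
    field_simp
  have hz'' : z * (p : ℤ) = 1 := by exact_mod_cast hz'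
  have := Int.eq_one_or_neg_one_of_mul_eq_one' hz''
  omega

/-- no algebraic integer satisfies `(2 + τ) (1 - p τ) = 1` -/
theorem no_tau (p : ℕ) (hp : 2 ≤ p) {τ : ℂ} (hτ : IsIntegral ℤ τ)
    (h : (2 + τ) * (1 - p * τ) = 1) : False := by
  obtain ⟨Q, hQ⟩ : ∃ Q : ℤ[X], Q = C (p : ℤ) * X ^ 2 + C (2 * (p : ℤ) - 1) * X + C (-1) :=
    ⟨_, rfl⟩
  have hQτ : aeval τ Q = 0 := by
    have e : ∀ n : ℤ, aeval τ (C n : ℤ[X]) = (n : ℂ) := fun n => by rw [aeval_C]; simp
    rw [hQ]
    simp only [map_add, map_mul, map_pow, aeval_X, e]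
    push_cast
    linear_combination -h
  have hp0 : (p : ℤ) ≠ 0 := by
    have : p ≠ 0 := by omega
    exact_mod_cast this
  have hQd : Q.natDegree = 2 := by
    rw [hQ]
    exact natDegree_quadratic hp0
  have hQl : Q.leadingCoeff = p := by
    rw [hQ]
    exact leadingCoeff_quadratic hp0
  obtain ⟨r, hr⟩ := minpoly.isIntegrallyClosed_dvd hτ hQτ
  have hm := minpoly.monic hτ
  have hr0 : r ≠ 0 := by
    rintro rfl
    rw [mul_zero] at hr
    rw [hr] at hQd
    simp at hQd
  have hdeg : (minpoly ℤ τ).natDegree + r.natDegree = 2 := by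
    rw [← hQd, hr, natDegree_mul hm.ne_zero hr0]
  have hlead : r.leadingCoeff = p := by
    rw [← hQl, hr, leadingCoeff_mul, hm.leadingCoeff, one_mul]
  have hc0 : (minpoly ℤ τ).coeff 0 * r.coeff 0 = -1 := by
    rw [← mul_coeff_zero, ← hr, hQ]
    simp
  have hmpos := minpoly.natDegree_pos hτ
  have hcases : (minpoly ℤ τ).natDegree = 1 ∨ (minpoly ℤ τ).natDegree = 2 := by omega
  rcases hcases with h1 | h2
  · have h3 := hm.eq_X_add_C h1
    obtain ⟨b, hb⟩ : ∃ b, b = (minpoly ℤ τ).coeff 0 := ⟨_, rfl⟩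
    rw [← hb] at h3 hc0
    have h4 := congrArg (eval (-b)) hr
    rw [eval_mul, h3] at h4
    simp only [hQ, eval_add, eval_mul, eval_pow, eval_X, eval_C, neg_add_cancel, zero_mul] at h4
    have hb1 : b = 1 ∨ b = -1 := by
      have : b * (-(r.coeff 0)) = 1 := by linarith
      exact Int.eq_one_or_neg_one_of_mul_eq_one this
    have hp2 : (2 : ℤ) ≤ p := by exact_mod_cast hp
    rcases hb1 with rfl | rfl
    · norm_num at h4
      omega
    · norm_num at h4
      omega
  · have h3 : r.natDegree = 0 := by omega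
    have h4 : r.coeff 0 = p := by
      rw [← hlead, leadingCoeff, h3]
    rw [h4] at hc0
    have h5 : (p : ℤ) * (-(minpoly ℤ τ).coeff 0) = 1 := by linarith
    have := Int.eq_one_or_neg_one_of_mul_eq_one h5
    omega

theorem powers (p : ℕ) (hp : 2 ≤ p) (x : ℂ) (hx : aeval x (P p) = 0) (n : ℕ) (hn : 1 ≤ n) :
    IntermediateField.adjoin ℚ {x ^ n} = IntermediateField.adjoin ℚ {x} := by
  have hx0 := root_ne p (by omega) hx
  have hxi : IsIntegral ℤ x := ⟨P p, P_monic p, hx⟩
  apply le_antisymm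
  · rw [IntermediateField.adjoin_simple_le_iff]
    exact pow_mem (IntermediateField.mem_adjoin_simple_self ℚ x) _
  · set L := IntermediateField.adjoin ℚ {x ^ n} with hL
    have hxiL : IsIntegral L x := hxi.tower_top
    have hxnL : x ^ n ∈ L := IntermediateField.mem_adjoin_simple_self ℚ (x ^ n)
    rw [IntermediateField.adjoin_simple_le_iff]
    by_contra hcon
    obtain ⟨y, hyx, hy⟩ := Pool.Agent.R80.WF.NdAux.exists_conj L x hxiL hcon
    have hyP : aeval y (P p) = 0 := by
      have hd : minpoly L x ∣ (P p).map (algebraMap ℤ L) := by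
        refine minpoly.dvd _ _ ?_
        rw [aeval_map_algebraMap]; exact hx
      obtain ⟨q, hq⟩ := hd
      have h2 := congrArg (aeval y) hq
      rw [map_mul, hy, zero_mul, aeval_map_algebraMap] at h2
      exact h2
    have hyn : y ^ n = x ^ n := by
      have hd : minpoly L x ∣ X ^ n - C (⟨x ^ n, hxnL⟩ : L) := by
        refine minpoly.dvd _ _ ?_
        simp
      obtain ⟨q, hq⟩ := hd
      have h2 := congrArg (aeval y) hq
      rw [map_mul, hy, zero_mul] at h2
      simp only [map_sub, map_pow, aeval_X, aeval_C] at h2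
      have h3 : (algebraMap L ℂ) (⟨x ^ n, hxnL⟩ : L) = x ^ n := rfl
      rw [h3, sub_eq_zero] at h2
      exact h2
    have hy0 := root_ne p (by omega) hyP
    -- the conjugates
    have hT : ∀ {w w' : ℂ}, w * w' = p → aeval w (P p) = 0 →
        (w + w') ^ 2 + (w + w') + (1 - 2 * p) = 0 := fun {w w'} h1 h2 =>
      H_of_P p h1 (root_ne p (by omega) h2) h2
    have hconj : ∀ {w : ℂ}, aeval w (P p) = 0 → aeval (p / w) (P p) = 0 := by
      intro w hw
      have hw0 := root_ne p (by omega) hw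
      rw [aeval_P] at hw ⊢
      have e : (p / w) ^ 4 + (p / w) ^ 3 + (p / w) ^ 2 + p * (p / w) + (p : ℂ) ^ 2 =
          (p : ℂ) ^ 2 / w ^ 4 * (w ^ 4 + w ^ 3 + w ^ 2 + p * w + p ^ 2) := by
        field_simp
        ring
      rw [e, hw, mul_zero]
    obtain ⟨x', hx'⟩ : ∃ x', x' = (p : ℂ) / x := ⟨_, rfl⟩
    obtain ⟨y', hy'⟩ : ∃ y', y' = (p : ℂ) / y := ⟨_, rfl⟩
    have hxx : x * x' = p := by rw [hx']; field_simp
    have hyy : y * y' = p := by rw [hy']; field_simp
    have hx'P : aeval x' (P p) = 0 := by rw [hx']; exact hconj hx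
    have hx'i : IsIntegral ℤ x' := ⟨P p, P_monic p, hx'P⟩
    have hTx := hT hxx hx
    have hTy := hT hyy hyP
    by_cases hS : y + y' = x + x'
    · have h1 : (y - x) * (y - x') = 0 := by
        linear_combination y * hS - hyy + hxx
      rcases mul_eq_zero.1 h1 with h2 | h2
      · exact hyx (sub_eq_zero.1 h2)
      · have h3 : y = x' := sub_eq_zero.1 h2
        rw [h3] at hyn
        exact no_real p hp hxi hx'i hxx hTx hn hyn
    · have hsum : (y + y') + (x + x') = -1 := by
        have h1 : ((y + y') - (x + x')) * ((y + y') + (x + x') + 1) = 0 := by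
          linear_combination hTy - hTx
        rcases mul_eq_zero.1 h1 with h2 | h2
        · exact absurd (sub_eq_zero.1 h2) hS
        · linear_combination h2
      have hprod : (x + x') * (y + y') = 1 - 2 * p := by
        linear_combination (x + x') * hsum - hTx
      obtain ⟨z, hz⟩ : ∃ z, z = y / x := ⟨_, rfl⟩
      obtain ⟨w, hw⟩ : ∃ w, w = x / y := ⟨_, rfl⟩
      have hzw : z * w = 1 := by rw [hz, hw]; field_simp
      have hyz : y = z * x := by rw [hz]; field_simp
      have hy'w : y' = w * x' := by rw [hy', hw, hx']; field_simp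
      have hzn : z ^ n = 1 := by
        rw [hz, div_pow, hyn, div_self (pow_ne_zero _ hx0)]
      have hwn : w ^ n = 1 := by
        rw [hw, div_pow, hyn, div_self (pow_ne_zero _ hx0)]
      have hzi : IsIntegral ℤ z := by
        refine ⟨X ^ n - 1, monic_X_pow_sub_C 1 (by omega), ?_⟩
        simp [hzn]
      have hwi : IsIntegral ℤ w := by
        refine ⟨X ^ n - 1, monic_X_pow_sub_C 1 (by omega), ?_⟩
        simp [hwn]
      refine no_tau p hp (hzi.add hwi) ?_
      rw [hyz, hy'w] at hsum hprod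
      have hu : (1 + z) * (x + w * x') = -1 := by
        linear_combination hsum + x' * hzw
      have hzu : z * (x + w * x') ^ 2 = 1 - p * (z + w) := by
        linear_combination hprod + (2 * x * x' + w * x' ^ 2) * hzw - (z + w - 2) * hxx
      have hsq : (1 + z) ^ 2 = z * (2 + (z + w)) := by
        linear_combination -hzw
      have h5 : (2 + (z + w)) * (z * (x + w * x') ^ 2) = 1 := by
        have h6 : (2 + (z + w)) * (z * (x + w * x') ^ 2) = ((1 + z) * (x + w * x')) ^ 2 := by
          rw [mul_pow, hsq]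
          ring
        rw [h6, hu]
        norm_num
      rw [← hzu]
      exact h5

theorem g2 : Pool.Agent.N205.WT.S_G2 := by
  intro p hpp
  have hp := hpp.two_le
  refine ⟨P p, P_monic p, P_deg p, P_irr p hp, fun x hx => (root p hp hx).1, ?_, ?_,
    fun x hx n hn => powers p hp x hx n hn⟩
  · intro i hi
    have hi' : i = 0 ∨ i = 1 := by omega
    rcases hi' with rfl | rfl
    · have : (P p).coeff 0 = (p : ℤ) ^ 2 := by
        simp only [P, coeff_add, coeff_X_pow, coeff_C_mul, coeff_X, coeff_C]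
        norm_num
      rw [this]
      exact dvd_pow_self _ (by norm_num)
    · have : (P p).coeff 1 = (p : ℤ) := by
        simp only [P, coeff_add, coeff_X_pow, coeff_C_mul, coeff_X, coeff_C]
        norm_num
      rw [this]
  · have : (P p).coeff (2 * 2 - 2) = 1 := by
      simp only [P, coeff_add, coeff_X_pow, coeff_C_mul, coeff_X, coeff_C]
      norm_num
    rw [this]
    intro h
    have h1 := Int.eq_one_of_dvd_one (by positivity) h
    have h2 : p = 1 := by exact_mod_cast h1
    omega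

end Pool.Agent.N459.WT
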